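import Pool.Graph.R_seed8.R750.NetFinal

/-!
# MP_34cb49_gt, Q1: one plane of small positive curvature, fixed vertices, arbitrarily many edges

For every `ε > 0` and `N` there is one complete Riemannian plane with `∫ K⁺ dA < ε` such that for
every `1 ≤ n ≤ N` there are a fixed set `U` of three points and a fixed set `B` of `n` points for
which, for every `r ≥ 2`, there is a geodesic net with unbalanced vertices `U`, balanced vertices
`B`, all of degree `2 r`, and `r (n + 1)` edges; at the points of `U` the sum of the unit tangent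
vectors is not zero.

The metric is the one of the library module `Pool.Graph.R_seed8.R750`; the net consists of `r` great
circles of different slopes through the same antipodal points.
-/

set_option autoImplicit false

open scoped ContDiff Topology
open Set

namespace Pool.Agent.Results.MP_34cb49_gt.ManyEdgesFixedVertices

open Pool.Agent.R750

section One

variable (D : Data2)

lemma cosh_deriv (t : ℝ) : HasDerivAt (fun t => Real.cosh (D.Yf t))
    (Real.sinh (D.Yf t) * (D.s * Real.cos t / D.Q t)) t :=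
  (D.Yf_deriv t).cosh

lemma sinh_eq (t : ℝ) : Real.sinh (D.Yf t) = D.s * Real.sin t * Real.cosh (D.Yf t) := by
  have h := D.tanh_Yf t
  have hc := (Real.cosh_pos (D.Yf t)).ne'
  rw [Real.tanh_eq_sinh_div_cosh, div_eq_iff hc] at h
  exact h

/-- `c sin t cosh Y` -/
noncomputable def pp (t : ℝ) : ℝ := D.c * Real.sin t * Real.cosh (D.Yf t)

/-- `cos t cosh Y` -/
noncomputable def qq (t : ℝ) : ℝ := Real.cos t * Real.cosh (D.Yf t)

lemma pp_deriv (t : ℝ) : HasDerivAt (pp D) (D.c / D.Q t * qq D t) t := by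
  have h1 := ((Real.hasDerivAt_sin t).const_mul D.c).mul (cosh_deriv D t)
  refine h1.congr_deriv ?_
  rw [sinh_eq]
  have hQ := (D.Q_pos t).ne'
  have e : D.Q t + D.s ^ 2 * Real.sin t ^ 2 = 1 := by unfold Data2.Q; ring
  unfold qq
  field_simp
  linear_combination (D.c * Real.cos t) * e

lemma qq_deriv (t : ℝ) : HasDerivAt (qq D) (-(D.c / D.Q t * pp D t)) t := by
  have h1 := (Real.hasDerivAt_cos t).mul (cosh_deriv D t)
  refine h1.congr_deriv ?_
  rw [sinh_eq]
  have hQ := (D.Q_pos t).ne'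
  have e : D.Q t - D.s ^ 2 * Real.cos t ^ 2 = D.c ^ 2 := by
    rw [D.c_sq]; unfold Data2.Q; nlinarith [Real.sin_sq_add_cos_sq t]
  unfold pp
  field_simp
  linear_combination (-(Real.sin t)) * e

lemma Xf_sin_cos (t : ℝ) : Real.sin (D.Xf t) = pp D t ∧ Real.cos (D.Xf t) = qq D t := by
  have hs : ∀ t, HasDerivAt (fun t => Real.sin (D.Xf t))
      (Real.cos (D.Xf t) * (D.c / D.Q t)) t := fun t => (D.Xf_deriv t).sin
  have hc : ∀ t, HasDerivAt (fun t => Real.cos (D.Xf t))
      (-Real.sin (D.Xf t) * (D.c / D.Q t)) t := fun t => (D.Xf_deriv t).cos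
  have hF : ∀ t, HasDerivAt (fun t => pp D t * Real.cos (D.Xf t) - qq D t * Real.sin (D.Xf t))
      0 t := by
    intro t
    refine (((pp_deriv D t).mul (hc t)).sub ((qq_deriv D t).mul (hs t))).congr_deriv ?_
    ring
  have hG : ∀ t, HasDerivAt (fun t => pp D t * Real.sin (D.Xf t) + qq D t * Real.cos (D.Xf t))
      0 t := by
    intro t
    refine (((pp_deriv D t).mul (hs t)).add ((qq_deriv D t).mul (hc t))).congr_deriv ?_
    ring
  have F0 := is_const_of_deriv_eq_zero (fun t => (hF t).differentiableAt)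
    (fun t => (hF t).deriv) t 0
  have G0 := is_const_of_deriv_eq_zero (fun t => (hG t).differentiableAt)
    (fun t => (hG t).deriv) t 0
  have hY0 : D.Yf 0 = 0 := D.Yf_of_sin Real.sin_zero
  have hp0 : pp D 0 = 0 := by simp [pp]
  have hq0 : qq D 0 = 1 := by simp [qq, hY0]
  simp only [D.Xf_zero, hp0, hq0, Real.cos_zero, Real.sin_zero] at F0 G0
  have h1 := Real.sin_sq_add_cos_sq (D.Xf t)
  constructor
  · linear_combination (-(Real.cos (D.Xf t))) * F0 - (Real.sin (D.Xf t)) * G0 + pp D t * h1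
  · linear_combination (Real.sin (D.Xf t)) * F0 - (Real.cos (D.Xf t)) * G0 + qq D t * h1

lemma sinh_Y_eq (t : ℝ) : D.c * Real.sinh (D.Yf t) = D.s * Real.sin (D.Xf t) := by
  rw [(Xf_sin_cos D t).1, sinh_eq]; unfold pp; ring

lemma Xf_sub_lt (t : ℝ) : |D.Xf t - t| < Real.pi / 2 := by
  by_contra hcon
  push Not at hcon
  have hcont : Continuous fun t => |D.Xf t - t| :=
    (D.Xf_smooth.continuous.sub continuous_id).abs
  have h0 : |D.Xf 0 - 0| ≤ Real.pi / 2 := by
    rw [D.Xf_zero]; simp; positivity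
  obtain ⟨r, hr⟩ := mem_range_of_exists_le_of_exists_ge hcont ⟨0, h0⟩ ⟨t, hcon⟩
  have h1 : Real.cos (D.Xf r - r) = 0 := by
    rw [← Real.cos_abs]
    show Real.cos ((fun t => |D.Xf t - t|) r) = 0
    rw [hr, Real.cos_pi_div_two]
  rw [Real.cos_sub, (Xf_sin_cos D r).1, (Xf_sin_cos D r).2] at h1
  unfold pp qq at h1
  have hc := Real.cosh_pos (D.Yf r)
  have hc2 := D.c_pos
  have h2 : Real.cosh (D.Yf r) * (Real.cos r ^ 2 + D.c * Real.sin r ^ 2) = 0 := by
    linear_combination h1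
  rcases mul_eq_zero.mp h2 with h | h
  · linarith
  · have h3 := Real.sin_sq_add_cos_sq r
    have h4 : 0 ≤ Real.cos r ^ 2 := sq_nonneg _
    have h5 : 0 ≤ D.c * Real.sin r ^ 2 := by positivity
    have h6 : Real.cos r ^ 2 = 0 := by linarith
    have h7 : D.c * Real.sin r ^ 2 = 0 := by linarith
    rcases mul_eq_zero.mp h7 with h | h
    · linarith
    · linarith

lemma Xf_pi (k : ℕ) : D.Xf (k * Real.pi) = k * Real.pi := by
  have h1 := abs_lt.mp (Xf_sub_lt D (k * Real.pi))
  have hp := Real.pi_pos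
  have h2 : Real.sin (D.Xf (k * Real.pi) - k * Real.pi) = 0 := by
    rw [Real.sin_sub, (Xf_sin_cos D _).1, Real.sin_nat_mul_pi]
    simp [pp]
  rw [Real.sin_eq_zero_iff_of_lt_of_lt (by linarith) (by linarith)] at h2
  linarith

end One

/-- A strip together with a sequence of distinct slopes. -/
structure Fam extends Data where
  s : ℕ → ℝ
  hs : ∀ j, 0 < s j
  hs1 : ∀ j, s j ≤ 1 / 2
  hs2 : ∀ j, s j < Real.tanh δ
  inj : Function.Injective s
  T : ℝ
  hT : 0 ≤ T
  hTX : 2 * T < X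

lemma exists_fam {δ T : ℝ} (hδ : 0 < δ) (hδ' : δ ≤ 1 / 4) (hT : 0 ≤ T) :
    ∃ F : Fam, F.X = 2 * T + 1 ∧ F.δ = δ ∧ F.T = T := by
  obtain ⟨D, h1, h2⟩ := exists_data (show 0 < 2 * T + 1 by linarith) hδ hδ'
  have ht : 0 < Real.tanh δ := by
    have := tanh_strictMono hδ; simpa using this
  set m := min (Real.tanh δ / 2) (1 / 2) with hm
  have hm0 : 0 < m := by positivity
  have hle : ∀ j : ℕ, m / (j + 1) ≤ m := fun j => by
    apply div_le_self hm0.le
    have : (0 : ℝ) ≤ j := Nat.cast_nonneg j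
    linarith
  refine ⟨{ D with
      s := fun j => m / (j + 1)
      hs := fun j => by positivity
      hs1 := fun j => (hle j).trans (min_le_right _ _)
      hs2 := fun j => ?_
      inj := fun i j hij => ?_
      T := T
      hT := hT
      hTX := by rw [h1]; linarith }, h1, h2, rfl⟩
  · rw [h2]
    exact lt_of_le_of_lt ((hle j).trans (min_le_left _ _)) (by linarith)
  · have hij' : m / ((i : ℝ) + 1) = m / ((j : ℝ) + 1) := hij
    have hi : ((i : ℝ) + 1) ≠ 0 := by positivity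
    have hj : ((j : ℝ) + 1) ≠ 0 := by positivity
    rw [div_eq_div_iff hi hj] at hij'
    have := mul_left_cancel₀ hm0.ne' hij'
    have h3 : (i : ℝ) = j := by linarith
    exact_mod_cast h3

namespace Fam

variable (F : Fam)

/-- the data of the great circle number `j` -/
def d (j : ℕ) : Data2 := ⟨F.toData, F.s j, F.hs j, F.hs1 j, F.hs2 j, F.T, F.hT, F.hTX⟩

lemma slope_inj {i j : ℕ} (h : (F.d i).s * (F.d j).c = (F.d j).s * (F.d i).c) : i = j := by
  have h1 : ((F.d i).s * (F.d j).c) ^ 2 = ((F.d j).s * (F.d i).c) ^ 2 := by rw [h]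
  rw [mul_pow, mul_pow, (F.d i).c_sq, (F.d j).c_sq] at h1
  have h2 : (F.d i).s ^ 2 = (F.d j).s ^ 2 := by linear_combination h1
  have h3 : F.s i = F.s j := by
    exact (pow_left_inj₀ (F.hs i).le (F.hs j).le two_ne_zero).mp h2
  exact F.inj h3

/-- the crossing points -/
noncomputable def P (k : ℕ) : ℝ × ℝ := (k * Real.pi, 0)

lemma P_inj : Function.Injective P := by
  intro j k h
  have h1 : (j : ℝ) * Real.pi = k * Real.pi := congrArg Prod.fst h
  exact_mod_cast mul_right_cancel₀ Real.pi_pos.ne' h1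

/-- the third unbalanced vertex -/
noncomputable def A (n : ℕ) : ℝ × ℝ := (F.d 0).crv 1 (n * Real.pi) (Real.pi / 2)

variable {n r : ℕ}

/-- the edges -/
noncomputable def ed (i : Fin (n + 1) × Fin r) : ℝ → ℝ × ℝ :=
  (F.d i.2).crv 1 ((i.1 : ℕ) * Real.pi)

/-- the lengths of the edges -/
noncomputable def ln (i : Fin (n + 1) × Fin r) : ℝ :=
  if (i.1 : ℕ) = n ∧ (i.2 : ℕ) = 0 then Real.pi / 2 else Real.pi

lemma ln_pos (i : Fin (n + 1) × Fin r) : 0 < ln i := by
  unfold ln; split <;> linarith [Real.pi_pos]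

lemma ln_le (i : Fin (n + 1) × Fin r) : ln i ≤ Real.pi := by
  unfold ln; split <;> linarith [Real.pi_pos]

lemma crv_eq (j : ℕ) (a t : ℝ) : (F.d j).crv 1 a t = ((F.d j).Xf (a + t), (F.d j).Yf (a + t)) := by
  simp [Data2.crv]

lemma crv_P (j k : ℕ) (a t : ℝ) (h : a + t = k * Real.pi) : (F.d j).crv 1 a t = P k := by
  rw [crv_eq, h, Xf_pi, (F.d j).Yf_of_sin (Real.sin_nat_mul_pi k)]; rfl

lemma ed_start (i : Fin (n + 1) × Fin r) : F.ed i 0 = P i.1 :=
  F.crv_P _ _ _ _ (by rw [add_zero])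

lemma ed_end_P (i : Fin (n + 1) × Fin r) (h : ¬ ((i.1 : ℕ) = n ∧ (i.2 : ℕ) = 0)) :
    F.ed i (ln i) = P (i.1 + 1) := by
  apply F.crv_P
  unfold ln; rw [if_neg h]; push_cast; ring

lemma ed_end_A (i : Fin (n + 1) × Fin r) (h : (i.1 : ℕ) = n ∧ (i.2 : ℕ) = 0) :
    F.ed i (ln i) = F.A n := by
  unfold ln ed A; rw [if_pos h, h.1, h.2]

lemma A_ne_P (n k : ℕ) : F.A n ≠ P k := by
  intro h
  unfold A at h
  rw [crv_eq] at h
  have h1 : (F.d 0).Yf (n * Real.pi + Real.pi / 2) = 0 := congrArg Prod.snd h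
  have h2 := (F.d 0).Yf_eq_zero h1
  rw [Real.sin_add_pi_div_two, Real.cos_nat_mul_pi] at h2
  exact pow_ne_zero _ (by norm_num) h2

open Classical in
/-- the unbalanced vertices -/
noncomputable def UU (n : ℕ) : Finset (ℝ × ℝ) := {P 0, P (n + 1), F.A n}

open Classical in
/-- the balanced vertices -/
noncomputable def BB (n : ℕ) : Finset (ℝ × ℝ) := (Finset.Icc 1 n).image P

lemma mem_UU {v : ℝ × ℝ} : v ∈ F.UU n ↔ v = P 0 ∨ v = P (n + 1) ∨ v = F.A n := by
  simp [UU]

lemma mem_BB {v : ℝ × ℝ} : v ∈ BB n ↔ ∃ k, (1 ≤ k ∧ k ≤ n) ∧ P k = v := by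
  simp [BB]

lemma card_UU : (F.UU n).card = 3 := by
  classical
  unfold UU
  apply Finset.card_eq_three.mpr
  refine ⟨_, _, _, ?_, ?_, ?_, rfl⟩
  · intro h; have := P_inj h; omega
  · exact (F.A_ne_P n _).symm
  · exact (F.A_ne_P n _).symm

lemma card_BB : (BB n).card = n := by
  classical
  unfold BB
  rw [Finset.card_image_of_injective _ P_inj]
  simp

lemma start_iff (i : Fin (n + 1) × Fin r) (m : ℕ) : F.ed i 0 = P m ↔ (i.1 : ℕ) = m := by
  rw [F.ed_start]
  exact ⟨fun h => P_inj h, fun h => by rw [h]⟩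

lemma end_iff (i : Fin (n + 1) × Fin r) (m : ℕ) (hm : m + 1 ≤ n) :
    F.ed i (ln i) = P (m + 1) ↔ (i.1 : ℕ) = m := by
  by_cases h : (i.1 : ℕ) = n ∧ (i.2 : ℕ) = 0
  · rw [F.ed_end_A i h]
    constructor
    · intro h1; exact absurd h1 (F.A_ne_P _ _)
    · intro h1; omega
  · rw [F.ed_end_P i h]
    constructor
    · intro h1; have := P_inj h1; omega
    · intro h1; rw [h1]

lemma filter_fst (m : ℕ) (hm : m ≤ n) :
    (Finset.univ.filter fun i : Fin (n + 1) × Fin r => (i.1 : ℕ) = m) =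
      ({(⟨m, by omega⟩ : Fin (n + 1))} : Finset (Fin (n + 1))) ×ˢ (Finset.univ : Finset (Fin r)) := by
  ext ⟨a, b⟩
  simp [Fin.ext_iff, eq_comm]

lemma card_filter_fst (m : ℕ) (hm : m ≤ n) :
    (Finset.univ.filter fun i : Fin (n + 1) × Fin r => (i.1 : ℕ) = m).card = r := by
  rw [filter_fst m hm, Finset.card_product]; simp

lemma sum_filter_fst (m : ℕ) (hm : m ≤ n) (f : Fin (n + 1) × Fin r → ℝ × ℝ) :
    ∑ i with (i.1 : ℕ) = m, f i = ∑ j : Fin r, f (⟨m, by omega⟩, j) := by
  rw [filter_fst m hm, Finset.sum_product]; simp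

lemma deriv_ed (i : Fin (n + 1) × Fin r) (t : ℝ) : deriv (F.ed i) t =
    ((F.d i.2).c / (F.d i.2).Q ((i.1 : ℕ) * Real.pi + t),
      1 * ((F.d i.2).s * Real.cos ((i.1 : ℕ) * Real.pi + t) /
        (F.d i.2).Q ((i.1 : ℕ) * Real.pi + t))) :=
  ((F.d i.2).crv_deriv _ _ t).deriv

/-- the total length of the great circle arc number `j` -/
noncomputable def LL (n j : ℕ) : ℝ := if j = 0 then n * Real.pi + Real.pi / 2 else (n + 1) * Real.pi

lemma LL_nonneg (n j : ℕ) : 0 ≤ LL n j := by unfold LL; split <;> positivity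

lemma connected (hr : 2 ≤ r) :
    IsConnected (({v | v ∈ F.UU n ∨ v ∈ BB n} : Set (ℝ × ℝ)) ∪
      ⋃ i : Fin (n + 1) × Fin r, F.ed i '' Icc 0 (ln i)) := by
  have hp := Real.pi_pos
  have hset : (({v | v ∈ F.UU n ∨ v ∈ BB n} : Set (ℝ × ℝ)) ∪
      ⋃ i : Fin (n + 1) × Fin r, F.ed i '' Icc 0 (ln i)) =
      ⋃ j : Fin r, (F.d j).crv 1 0 '' Icc 0 (LL n j) := by
    have hP : ∀ k : ℕ, k ≤ n + 1 → P k ∈ (F.d 1).crv 1 0 '' Icc 0 (LL n 1) := by
      intro k hk
      refine ⟨k * Real.pi, ⟨by positivity, ?_⟩, F.crv_P _ _ _ _ (by ring)⟩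
      have : (k : ℝ) ≤ n + 1 := by exact_mod_cast hk
      simp only [LL, one_ne_zero, if_false]
      nlinarith
    have hP' : ∀ k : ℕ, k ≤ n + 1 → P k ∈ ⋃ j : Fin r, (F.d j).crv 1 0 '' Icc 0 (LL n j) := by
      intro k hk
      exact mem_iUnion.mpr ⟨⟨1, by omega⟩, hP k hk⟩
    apply subset_antisymm
    · apply union_subset
      · rintro v (hv | hv)
        · rw [F.mem_UU] at hv
          rcases hv with rfl | rfl | rfl
          · exact hP' 0 (Nat.zero_le _)
          · exact hP' (n + 1) le_rfl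
          · refine mem_iUnion.mpr ⟨⟨0, by omega⟩, n * Real.pi + Real.pi / 2,
              ⟨by positivity, by simp [LL]⟩, ?_⟩
            unfold A
            rw [crv_eq, crv_eq]
            simp
        · rw [mem_BB] at hv
          obtain ⟨k, ⟨_, hk⟩, rfl⟩ := hv
          exact hP' k (by omega)
      · apply iUnion_subset
        intro i
        rintro _ ⟨t, ⟨ht0, ht1⟩, rfl⟩
        refine mem_iUnion.mpr ⟨i.2, (i.1 : ℕ) * Real.pi + t, ⟨by positivity, ?_⟩, ?_⟩
        · have hi : ((i.1 : ℕ) : ℝ) ≤ n := by exact_mod_cast Nat.lt_succ_iff.mp i.1.2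
          unfold LL
          split
          · rename_i h0
            by_cases hn : (i.1 : ℕ) = n
            · rw [ln, if_pos ⟨hn, h0⟩] at ht1
              rw [hn]; linarith
            · have : ((i.1 : ℕ) : ℝ) + 1 ≤ n := by
                have := i.1.2
                exact_mod_cast (show (i.1 : ℕ) + 1 ≤ n by omega)
              have := ht1.trans (ln_le i)
              nlinarith
          · have := ht1.trans (ln_le i)
            nlinarith
        · unfold ed
          rw [crv_eq, crv_eq, zero_add]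
    · apply iUnion_subset
      rintro j _ ⟨t, ⟨ht0, ht1⟩, rfl⟩
      right
      rw [mem_iUnion]
      by_cases hlast : t = (n + 1) * Real.pi
      · have hj : (j : ℕ) ≠ 0 := by
          intro h0
          rw [LL, if_pos h0] at ht1
          rw [hlast] at ht1
          nlinarith
        refine ⟨(Fin.last n, j), Real.pi, ⟨hp.le, ?_⟩, ?_⟩
        · rw [ln, if_neg (by rintro ⟨_, h⟩; exact hj h)]
        · unfold ed
          rw [crv_eq, crv_eq, hlast]
          simp only [Fin.val_last, zero_add]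
          rw [show (n : ℝ) * Real.pi + Real.pi = (n + 1) * Real.pi by ring]
      have ht2 : t < (n + 1) * Real.pi := by
        refine lt_of_le_of_ne (ht1.trans ?_) hlast
        unfold LL; split
        · nlinarith
        · exact le_rfl
      have hfl : (⌊t / Real.pi⌋₊ : ℝ) ≤ t / Real.pi := Nat.floor_le (by positivity)
      have hfl2 : t / Real.pi < ⌊t / Real.pi⌋₊ + 1 := Nat.lt_floor_add_one _
      rw [le_div_iff₀ hp] at hfl
      rw [div_lt_iff₀ hp] at hfl2
      have hk : ⌊t / Real.pi⌋₊ ≤ n := by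
        by_contra hc
        push Not at hc
        have : (n : ℝ) + 1 ≤ ⌊t / Real.pi⌋₊ := by exact_mod_cast hc
        nlinarith
      refine ⟨(⟨⌊t / Real.pi⌋₊, by omega⟩, j), t - ⌊t / Real.pi⌋₊ * Real.pi,
        ⟨by linarith, ?_⟩, ?_⟩
      · unfold ln
        split
        · rename_i h
          have h3 : ⌊t / Real.pi⌋₊ = n := h.1
          rw [LL, if_pos h.2] at ht1
          rw [h3]
          linarith
        · linarith
      · unfold ed
        rw [crv_eq, crv_eq]
        simp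
  rw [hset]
  have hc : ∀ j : Fin r, IsConnected ((F.d j).crv 1 0 '' Icc 0 (LL n j)) := fun j =>
    (isConnected_Icc (LL_nonneg n j)).image _ ((F.d j).crv_smooth 1 0).continuous.continuousOn
  have h0 : ∀ j : Fin r, P 0 ∈ (F.d j).crv 1 0 '' Icc 0 (LL n j) := fun j =>
    ⟨0, ⟨le_rfl, LL_nonneg n j⟩, F.crv_P _ _ _ _ (by simp)⟩
  refine ⟨⟨P 0, mem_iUnion.mpr ⟨⟨0, by omega⟩, h0 _⟩⟩, ?_⟩
  exact isPreconnected_iUnion ⟨P 0, mem_iInter.mpr h0⟩ fun j => (hc j).isPreconnected

/-- the geodesic net -/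
noncomputable def net (hn : 1 ≤ n) (hr : 2 ≤ r) (hT : (n + 1) * Real.pi ≤ F.T) :
    GeodesicNet F.plane where
  U := F.UU n
  B := BB n
  disj := by
    rw [Finset.disjoint_left]
    intro v hv hv'
    rw [F.mem_UU] at hv
    rw [mem_BB] at hv'
    obtain ⟨k, hk, rfl⟩ := hv'
    rcases hv with h | h | h
    · have := P_inj h; omega
    · have := P_inj h; omega
    · exact F.A_ne_P _ _ h.symm
  ι := Fin (n + 1) × Fin r
  γ := F.ed
  len := ln
  len_pos := ln_pos
  geodesic := by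
    intro i s hs
    have h1 := ln_le i
    have h2 : ((i.1 : ℕ) : ℝ) ≤ n := by exact_mod_cast Nat.lt_succ_iff.mp i.1.2
    have hp := Real.pi_pos
    refine (F.d i.2).geodesic (Or.inl rfl) (by have := hs.1; positivity) ?_
    show ((i.1 : ℕ) : ℝ) * Real.pi + s ≤ F.T
    have := hs.2
    nlinarith
  start_mem := by
    intro i
    rw [Finset.mem_union, F.mem_UU, mem_BB, F.ed_start]
    rcases Nat.eq_zero_or_pos (i.1 : ℕ) with h | h
    · left; left; rw [h]
    · right; exact ⟨i.1, ⟨h, by have := i.1.2; omega⟩, rfl⟩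
  end_mem := by
    intro i
    rw [Finset.mem_union, F.mem_UU, mem_BB]
    by_cases h : (i.1 : ℕ) = n ∧ (i.2 : ℕ) = 0
    · rw [F.ed_end_A i h]
      left; right; right; rfl
    · rw [F.ed_end_P i h]
      by_cases h' : (i.1 : ℕ) = n
      · left; right; left; rw [h']
      · right; exact ⟨i.1 + 1, ⟨by omega, by have := i.1.2; omega⟩, rfl⟩
  embedded := by
    intro i j s hs t ht h
    have hp := Real.pi_pos
    have h' := h
    unfold ed at h'
    rw [crv_eq, crv_eq] at h'
    have h1 : (F.d i.2).Xf ((i.1 : ℕ) * Real.pi + s) = (F.d j.2).Xf ((j.1 : ℕ) * Real.pi + t) :=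
      congrArg Prod.fst h'
    have h2 : (F.d i.2).Yf ((i.1 : ℕ) * Real.pi + s) = (F.d j.2).Yf ((j.1 : ℕ) * Real.pi + t) :=
      congrArg Prod.snd h'
    have h3 := ln_le i
    have h4 := ln_le j
    have hs0 := hs.1
    have hs1 := hs.2
    have ht0 := ht.1
    have ht1 := ht.2
    have hsin : Real.sin ((i.1 : ℕ) * Real.pi + s) ≠ 0 := by
      intro h8
      rw [Real.sin_add, Real.sin_nat_mul_pi, Real.cos_nat_mul_pi, zero_mul, zero_add] at h8
      have h10 : 0 < Real.sin s := Real.sin_pos_of_pos_of_lt_pi (by linarith) (by linarith)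
      rcases mul_eq_zero.mp h8 with h | h
      · exact absurd h (pow_ne_zero _ (by norm_num))
      · linarith
    have e1 := sinh_Y_eq (F.d i.2) ((i.1 : ℕ) * Real.pi + s)
    have e2 := sinh_Y_eq (F.d j.2) ((j.1 : ℕ) * Real.pi + t)
    rw [← h1, ← h2] at e2
    have hX : Real.sin ((F.d i.2).Xf ((i.1 : ℕ) * Real.pi + s)) ≠ 0 := by
      intro h0
      rw [h0, mul_zero] at e1
      rcases mul_eq_zero.mp e1 with h | h
      · exact (F.d i.2).c_pos.ne' h
      · exact hsin ((F.d i.2).Yf_eq_zero (Real.sinh_eq_zero.mp h))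
    have e3 : (F.d i.2).s * (F.d j.2).c = (F.d j.2).s * (F.d i.2).c := by
      apply mul_right_cancel₀ hX
      linear_combination (-(F.d j.2).c) * e1 + (F.d i.2).c * e2
    have hij : i.2 = j.2 := Fin.ext (F.slope_inj e3)
    rw [← hij] at h1
    have h1' := (F.d i.2).Xf_strictMono.injective h1
    have h5 : (i.1 : ℕ) = (j.1 : ℕ) := by
      rcases lt_trichotomy (i.1 : ℕ) (j.1 : ℕ) with h | h | h
      · have : ((i.1 : ℕ) : ℝ) + 1 ≤ ((j.1 : ℕ) : ℝ) := by exact_mod_cast h
        nlinarith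
      · exact h
      · have : ((j.1 : ℕ) : ℝ) + 1 ≤ ((i.1 : ℕ) : ℝ) := by exact_mod_cast h
        nlinarith
    rw [h5] at h1'
    exact ⟨Prod.ext (Fin.ext h5) hij, by linarith⟩
  degree := by
    intro v hv
    rw [mem_BB] at hv
    obtain ⟨k, ⟨hk1, hk2⟩, rfl⟩ := hv
    obtain ⟨m, rfl⟩ : ∃ m, k = m + 1 := ⟨k - 1, by omega⟩
    simp only [F.start_iff, F.end_iff _ m hk2]
    rw [card_filter_fst (m + 1) hk2, card_filter_fst m (by omega)]
    omega
  balanced := by
    intro v hv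
    rw [mem_BB] at hv
    obtain ⟨k, ⟨hk1, hk2⟩, rfl⟩ := hv
    obtain ⟨m, rfl⟩ : ∃ m, k = m + 1 := ⟨k - 1, by omega⟩
    simp only [F.start_iff, F.end_iff _ m hk2]
    rw [sum_filter_fst (m + 1) hk2, sum_filter_fst m (by omega), sub_eq_zero]
    apply Finset.sum_congr rfl
    intro j _
    have hm : m ≠ n := by omega
    have e3 : ((m : ℕ) : ℝ) * Real.pi + Real.pi = ((m + 1 : ℕ) : ℝ) * Real.pi := by
      push_cast; ring
    simp only [F.deriv_ed, ln, hm, false_and, if_false, add_zero, e3]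
  incident := by
    intro v hv
    rw [F.mem_UU] at hv
    rcases hv with rfl | rfl | rfl
    · exact ⟨(0, ⟨0, by omega⟩), Or.inl (by rw [F.ed_start]; rfl)⟩
    · exact ⟨(Fin.last n, ⟨1, by omega⟩), Or.inr (by rw [F.ed_end_P _ (by simp)]; rfl)⟩
    · exact ⟨(Fin.last n, ⟨0, by omega⟩), Or.inr (by rw [F.ed_end_A _ (by simp)])⟩
  no_UU := by
    rintro i ⟨h1, h2⟩
    rw [F.mem_UU] at h1 h2
    rw [F.ed_start] at h1
    have hi := i.1.2
    have h3 : (i.1 : ℕ) = 0 := by
      rcases h1 with h | h | h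
      · exact P_inj h
      · have := P_inj h; omega
      · exact absurd h.symm (F.A_ne_P _ _)
    rw [F.ed_end_P i (by omega)] at h2
    rcases h2 with h | h | h
    · have := P_inj h; omega
    · have := P_inj h; omega
    · exact absurd h.symm (F.A_ne_P _ _)
  connected := by
    have := F.connected (n := n) hr
    convert this using 2
    ext v
    simp

end Fam

open Classical in
/-- The sum of the unit tangent vectors at `v` of the edges of the net `N`, pointing away from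
`v`. -/
noncomputable def imbalance {g : RPlane} (N : GeodesicNet g) (v : ℝ × ℝ) : ℝ × ℝ :=
  ∑ i with N.γ i 0 = v, deriv (N.γ i) 0 - ∑ i with N.γ i (N.len i) = v, deriv (N.γ i) (N.len i)

lemma imbalance_ne {n r : ℕ} (F : Fam) (hn : 1 ≤ n) (hr : 2 ≤ r) (hT : (n + 1) * Real.pi ≤ F.T)
    (v : ℝ × ℝ) (hv : v ∈ F.UU n) : imbalance (F.net hn hr hT) v ≠ 0 := by
  classical
  intro h0
  have hpos : ∀ (i : Fin (n + 1) × Fin r) (t : ℝ), 0 < (deriv (F.ed i) t).1 := by
    intro i t
    rw [F.deriv_ed]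
    exact div_pos (F.d i.2).c_pos ((F.d i.2).Q_pos _)
  have h1 : (∑ i ∈ Finset.univ.filter (fun i : Fin (n + 1) × Fin r => F.ed i 0 = v),
        (deriv (F.ed i) 0).1) -
      (∑ i ∈ Finset.univ.filter (fun i : Fin (n + 1) × Fin r => F.ed i (Fam.ln i) = v),
        (deriv (F.ed i) (Fam.ln i)).1) = 0 := by
    have := congrArg Prod.fst h0
    simp only [imbalance, Prod.fst_sub, Prod.fst_sum, Prod.fst_zero] at this
    exact this
  rw [F.mem_UU] at hv
  rcases hv with rfl | rfl | rfl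
  · have e : (Finset.univ.filter (fun i : Fin (n + 1) × Fin r =>
        F.ed i (Fam.ln i) = Fam.P 0)) = ∅ := by
      apply Finset.filter_eq_empty_iff.mpr
      intro i _ hi
      by_cases h : (i.1 : ℕ) = n ∧ (i.2 : ℕ) = 0
      · rw [F.ed_end_A i h] at hi; exact F.A_ne_P _ _ hi
      · rw [F.ed_end_P i h] at hi; have := Fam.P_inj hi; omega
    rw [e, Finset.sum_empty, sub_zero] at h1
    refine (Finset.sum_pos (fun i _ => hpos i 0) ⟨(0, ⟨0, by omega⟩), ?_⟩).ne' h1
    simp [F.ed_start]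
  · have e : (Finset.univ.filter (fun i : Fin (n + 1) × Fin r => F.ed i 0 = Fam.P (n + 1))) = ∅ := by
      apply Finset.filter_eq_empty_iff.mpr
      intro i _ hi
      rw [F.ed_start] at hi; have := Fam.P_inj hi; have := i.1.2; omega
    rw [e, Finset.sum_empty, zero_sub, neg_eq_zero] at h1
    refine (Finset.sum_pos (fun i _ => hpos i (Fam.ln i)) ⟨(Fin.last n, ⟨1, by omega⟩), ?_⟩).ne' h1
    rw [Finset.mem_filter]
    exact ⟨Finset.mem_univ _, by rw [F.ed_end_P _ (by simp)]; rfl⟩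
  · have e : (Finset.univ.filter (fun i : Fin (n + 1) × Fin r => F.ed i 0 = F.A n)) = ∅ := by
      apply Finset.filter_eq_empty_iff.mpr
      intro i _ hi
      rw [F.ed_start] at hi; exact F.A_ne_P _ _ hi.symm
    rw [e, Finset.sum_empty, zero_sub, neg_eq_zero] at h1
    refine (Finset.sum_pos (fun i _ => hpos i (Fam.ln i)) ⟨(Fin.last n, ⟨0, by omega⟩), ?_⟩).ne' h1
    rw [Finset.mem_filter]
    exact ⟨Finset.mem_univ _, F.ed_end_A _ (by simp)⟩

/-- For every `ε > 0` and every `m` there is one Riemannian plane `g`, complete because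
`g ≥ (1/4) (dx² + dy²)`, with `∫ K⁺ dA < ε`, such that for every `n` with `1 ≤ n ≤ m` there are a
set `U` of three points and a set `B` of `n` points for which for every `r ≥ 2` there is a geodesic
net in `g` with set of unbalanced vertices `U` and set of balanced vertices `B`, in which every
balanced vertex has degree `2 r`, the unit tangent vectors at every vertex in `U` do not sum to
zero, and which has exactly `r (n + 1)` edges. -/
theorem result (ε : ℝ) (hε : 0 < ε) (m : ℕ) :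
    ∃ g : RPlane, (∀ p v : ℝ × ℝ, (1 / 4) * (v.1 ^ 2 + v.2 ^ 2) ≤ g.inn p v v) ∧
      g.totalPosCurv < ENNReal.ofReal ε ∧
      ∀ n : ℕ, 1 ≤ n → n ≤ m → ∃ U B : Finset (ℝ × ℝ), U.card = 3 ∧ B.card = n ∧
        ∀ r : ℕ, 2 ≤ r → ∃ N : GeodesicNet g, N.U = U ∧ N.B = B ∧
          (∀ v ∈ B, N.deg v = 2 * r) ∧ (∀ v ∈ U, imbalance N v ≠ 0) ∧
          N.numEdges = r * (n + 1) := by
  have hp := Real.pi_pos
  set T : ℝ := (m + 1) * Real.pi with hTdef
  have hT : 0 ≤ T := by positivity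
  obtain ⟨δ, hδ, hδ', hδε⟩ : ∃ δ : ℝ, 0 < δ ∧ δ ≤ 1 / 4 ∧ 8 * δ * ((2 * T + 1) + 1) < ε := by
    refine ⟨min (1 / 4) (ε / (16 * (2 * T + 2))), by positivity, min_le_left _ _, ?_⟩
    have h1 : min (1 / 4) (ε / (16 * (2 * T + 2))) ≤ ε / (16 * (2 * T + 2)) := min_le_right _ _
    have h2 : ε / (16 * (2 * T + 2)) * (16 * (2 * T + 2)) = ε := by field_simp
    nlinarith
  obtain ⟨F, h1, h2, h3⟩ := exists_fam hδ hδ' hT
  refine ⟨F.plane, ?_, ?_, ?_⟩
  · intro p v
    have h := F.lam_ge p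
    have e : F.plane.inn p v v = F.lam p * (v.1 ^ 2 + v.2 ^ 2) := by
      simp only [RPlane.inn, Data.plane]; ring
    rw [e]
    nlinarith [sq_nonneg v.1, sq_nonneg v.2]
  · refine lt_of_le_of_lt F.total ?_
    rw [h1, h2]
    exact (ENNReal.ofReal_lt_ofReal_iff hε).mpr hδε
  · intro n hn hnm
    refine ⟨F.UU n, Fam.BB n, F.card_UU, Fam.card_BB, ?_⟩
    intro r hr
    have hTn : ((n : ℝ) + 1) * Real.pi ≤ F.T := by
      rw [h3, hTdef]
      have : (n : ℝ) ≤ m := by exact_mod_cast hnm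
      nlinarith
    refine ⟨F.net hn hr hTn, rfl, rfl, ?_, imbalance_ne F hn hr hTn, ?_⟩
    · intro v hv
      rw [Fam.mem_BB] at hv
      obtain ⟨k, ⟨hk1, hk2⟩, rfl⟩ := hv
      obtain ⟨l, rfl⟩ : ∃ l, k = l + 1 := ⟨k - 1, by omega⟩
      show (Finset.univ.filter fun i : Fin (n + 1) × Fin r => F.ed i 0 = Fam.P (l + 1)).card +
        (Finset.univ.filter fun i : Fin (n + 1) × Fin r =>
          F.ed i (Fam.ln i) = Fam.P (l + 1)).card = 2 * r
      simp only [F.start_iff, F.end_iff _ l hk2]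
      rw [Fam.card_filter_fst (l + 1) hk2, Fam.card_filter_fst l (by omega)]
      omega
    · show Fintype.card (Fin (n + 1) × Fin r) = r * (n + 1)
      simp
      ring

end Pool.Agent.Results.MP_34cb49_gt.ManyEdgesFixedVertices
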